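import Pool.Agent.H174.GM.Stmts2

set_option autoImplicit false

namespace Pool.Agent.H728.GM174

open Finset Pool.Agent.H174.GM

lemma single_supp {k : ℕ} {a γ : Ex k} {c : ℚ} (h : (HahnSeries.single a c : E k).coeff γ ≠ 0) :
    γ = a := by
  by_contra hne
  exact h (HahnSeries.coeff_single_of_ne hne)

lemma lead_xx {k : ℕ} (j : Fin k) : Lead (xx j) (toLex (Pi.single j 1)) := by
  refine ⟨?_, fun δ hδ => ?_⟩
  · unfold xx
    rw [HahnSeries.coeff_single_same]
    exact one_ne_zero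
  · unfold xx
    exact HahnSeries.coeff_single_of_ne (ne_of_lt hδ)

lemma ge_xx {k : ℕ} (j i : Fin k) : Ge j ((Pi.single i 1 : Fin k → ℤ) j) (xx i) := by
  intro γ hγ
  have := single_supp hγ
  rw [this]
  exact le_refl _

lemma le_xx {k : ℕ} (j i : Fin k) : Le j ((Pi.single i 1 : Fin k → ℤ) j) (xx i) := by
  intro γ hγ
  have := single_supp hγ
  rw [this]
  exact le_refl _

lemma pos_single {k : ℕ} (j : Fin k) : (0 : Ex k) < toLex (Pi.single j 1) := by
  refine ⟨j, fun i hi => ?_, ?_⟩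
  · show (0 : ℤ) = (Pi.single j 1 : Fin k → ℤ) i
    rw [Pi.single_eq_of_ne (ne_of_lt hi)]
  · show (0 : ℤ) < (Pi.single j 1 : Fin k → ℤ) j
    rw [Pi.single_eq_same]
    exact one_pos

theorem xf (h1 : S_EH1) (h2 : S_EH2) : S_XF := by
  intro k j
  have hx1 : Ge j 1 (xx j) := by
    have := ge_xx j j
    rwa [Pi.single_eq_same] at this
  have hx2 : Le j 1 (xx j) := by
    have := le_xx j j
    rwa [Pi.single_eq_same] at this
  have hfree : ∀ i, i ≠ j → Free j (xx i) := by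
    intro i hij
    have a1 := ge_xx j i
    have a2 := le_xx j i
    rw [Pi.single_eq_of_ne hij.symm] at a1 a2
    exact ⟨a1, a2⟩
  have hC : ∀ (l : Fin k) (c : ℚ), Free l (algebraMap ℚ (E k) c) := by
    intro l c
    have key : ∀ γ : Ex k, (algebraMap ℚ (E k) c).coeff γ ≠ 0 → γ = 0 := by
      intro γ hγ
      rw [HahnSeries.algebraMap_apply] at hγ
      exact single_supp hγ
    exact ⟨fun γ hγ => by rw [key γ hγ]; exact le_refl _,
      fun γ hγ => by rw [key γ hγ]; exact le_refl _⟩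
  have hone : ∀ l : Fin k, Free l (1 : E k) := by
    intro l
    have := hC l 1
    rwa [map_one] at this
  have hlead1 : ∀ i : Fin k, Lead (1 - xx i : E k) 0 := by
    intro i
    have hpos := pos_single i
    refine ⟨?_, fun δ hδ => ?_⟩
    · rw [HahnSeries.coeff_sub]
      unfold xx
      rw [HahnSeries.coeff_single_of_ne (ne_of_lt hpos), HahnSeries.coeff_one]
      simp
    · rw [HahnSeries.coeff_sub]
      unfold xx
      rw [HahnSeries.coeff_single_of_ne (ne_of_lt (hδ.trans hpos)), HahnSeries.coeff_one,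
        if_neg (ne_of_lt hδ), sub_zero]
  have hge1 : ∀ i : Fin k, Ge i 0 (1 - xx i : E k) := by
    intro i
    rw [sub_eq_add_neg]
    have hxi : Ge i 1 (xx i) := by
      have := ge_xx i i
      rwa [Pi.single_eq_same] at this
    refine (h1 k i 0 0 1 (-xx i)).2.2.1 (hone i).1 ?_
    refine (h1 k i 0 0 (xx i) (xx i)).2.2.2.2.1 ?_
    exact (h1 k i 1 0 (xx i) (xx i)).2.2.2.2.2.2.1 hxi (by norm_num)
  have hinv : ∀ f : E k, Free j f → Free j f⁻¹ := by
    intro f hf
    by_cases h0 : f = 0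
    · rw [h0, inv_zero]
      exact ⟨fun γ hγ => absurd (HahnSeries.coeff_zero) hγ,
        fun γ hγ => absurd (HahnSeries.coeff_zero) hγ⟩
    · have hl : Lead f f.order := by
        refine ⟨?_, fun δ hδ => HahnSeries.coeff_eq_zero_of_lt_order hδ⟩
        exact fun h => h0 (HahnSeries.coeff_order_eq_zero.1 h)
      have h3 : ofLex f.order j = 0 := le_antisymm (hf.2 _ hl.1) (hf.1 _ hl.1)
      have h4 := h2 k f f.order hl
      have h5 := h4.2.1 j
      have h6 := h4.2.2 j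
      rw [h3] at h5 h6
      have h5' := h5 hf.1
      have h6' := h6 hf.2
      rw [neg_zero] at h5' h6'
      exact ⟨h5', h6'⟩
  refine ⟨lead_xx j, hx1, hx2, hfree, fun i => ⟨hlead1 i, hge1 i, ?_⟩, hC j, ?_, ?_⟩
  · have h4 := (h2 k (1 - xx i) 0 (hlead1 i)).2.1 i
    have h5 : ofLex (0 : Ex k) i = 0 := rfl
    rw [h5] at h4
    have := h4 (hge1 i)
    rwa [neg_zero] at this
  · intro f g hf hg
    have e1 := h1 k j 0 0 f g
    refine ⟨⟨e1.2.2.1 hf.1 hg.1, e1.2.2.2.1 hf.2 hg.2⟩, ?_⟩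
    have m1 := e1.1 hf.1 hg.1
    have m2 := e1.2.1 hf.2 hg.2
    rw [add_zero] at m1 m2
    exact ⟨m1, m2⟩
  · intro f hf
    have e1 := h1 k j 0 0 f f
    exact ⟨⟨e1.2.2.2.2.1 hf.1, e1.2.2.2.2.2.1 hf.2⟩, hinv f hf⟩

end Pool.Agent.H728.GM174
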